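import Pool.Agent.C4F.StmtsP

/-!
# Squad C4F, row EQB
-/

set_option autoImplicit false

namespace Pool.Agent.C4F.H86

theorem eqb : EqbStmt := by
  intro D β i x j y h1 h2 v
  induction v using Nat.strong_induction_on with
  | _ v ih =>
    intro hv hi hj
    by_contra hne
    have hag : ∀ u < v, D.VS i u → D.VS j u → β x (D.rk i u) = β y (D.rk j u) :=
      fun u hu hui huj => ih u hu (lt_trans hu hv) hui huj
    cases hx : β x (D.rk i v) with
    | true =>
      cases hy : β y (D.rk j v) with
      | true => exact hne (by rw [hx, hy])
      | false => exact h1 ⟨v, hv, hi, hj, hx, hy, hag⟩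
    | false =>
      cases hy : β y (D.rk j v) with
      | true =>
        exact h2 ⟨v, hv, hj, hi, hy, hx, fun u hu huj hui => (hag u hu hui huj).symm⟩
      | false => exact hne (by rw [hx, hy])

end Pool.Agent.C4F.H86
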