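import Pool.Agent.C4F.StmtsP

/-!
# Squad C4F, row GLU
-/

set_option autoImplicit false

namespace Pool.Agent.C4F.H86

variable {V I X : Type} {ι : V → I} {ξ : V → X} {H : I → I → Prop}
    {A : I → X → I → X → Prop}

/-- two consecutive vertices of an induced 4-cycle have different indices -/
theorem side
    (hAH : ∀ i x j y, A i x j y → H i j)
    (hsym : ∀ i x j y, A i x j y → A j y i x)
    (hnest : ∀ i x j y x' y', A i x j y → A i x' j y' → A i x j y' ∨ A i x' j y)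
    (htri : ∀ i j l, H i j → H j l → H l i → False)
    {a b c d : V}
    (hbc : ι b = ι c ∨ A (ι b) (ξ b) (ι c) (ξ c))
    (hcd : ι c = ι d ∨ A (ι c) (ξ c) (ι d) (ξ d))
    (hda : ι d = ι a ∨ A (ι d) (ξ d) (ι a) (ξ a))
    (hac : ι a ≠ ι c ∧ ¬ A (ι a) (ξ a) (ι c) (ξ c))
    (hbd : ι b ≠ ι d ∧ ¬ A (ι b) (ξ b) (ι d) (ξ d)) : ι a ≠ ι b := by
  intro hab
  rcases hbc with h | hbc
  · exact hac.1 (hab.trans h)
  rcases hda with h | hda
  · exact hbd.1 (hab.symm.trans h.symm)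
  rcases hcd with hcd | hcd
  · have e1 := hsym _ _ _ _ hda
    rw [← hcd] at e1
    rw [← hab] at hbc
    rcases hnest _ _ _ _ _ _ hbc e1 with h | h
    · rw [hab, hcd] at h
      exact hbd.2 h
    · exact hac.2 h
  · have h1 := hAH _ _ _ _ hbc
    have h2 := hAH _ _ _ _ hcd
    have h3 := hAH _ _ _ _ hda
    rw [hab] at h3
    exact htri _ _ _ h1 h2 h3

theorem glu : GluStmt := by
  intro V I X ι ξ H bad A G hadj hadj' hAH hsym hnest htri hfour
  refine ⟨fun e => ?_⟩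
  -- the four vertices
  have key : ∀ p q : Fin 4, G.Adj (e p) (e q) ↔ (SimpleGraph.cycleGraph 4).Adj p q :=
    fun p q => e.map_rel_iff
  have d02 : ¬ (SimpleGraph.cycleGraph 4).Adj 0 2 := by decide
  have d13 : ¬ (SimpleGraph.cycleGraph 4).Adj 1 3 := by decide
  have a01 : (SimpleGraph.cycleGraph 4).Adj 0 1 := by decide
  have a12 : (SimpleGraph.cycleGraph 4).Adj 1 2 := by decide
  have a23 : (SimpleGraph.cycleGraph 4).Adj 2 3 := by decide
  have a30 : (SimpleGraph.cycleGraph 4).Adj 3 0 := by decide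
  have n02 : e 0 ≠ e 2 := fun h => absurd (e.injective h) (by decide)
  have n13 : e 1 ≠ e 3 := fun h => absurd (e.injective h) (by decide)
  have non : ∀ u v, u ≠ v → ¬ G.Adj u v → ι u ≠ ι v ∧ ¬ bad (ι u) (ξ u) ∧ ¬ bad (ι v) (ξ v) ∧
      ¬ A (ι u) (ξ u) (ι v) (ξ v) := by
    intro u v huv h
    have h' := fun h1 => h (hadj' u v huv h1)
    refine ⟨fun h1 => h' (Or.inl h1), fun h1 => h' (Or.inr (Or.inl h1)),
      fun h1 => h' (Or.inr (Or.inr (Or.inl h1))), fun h1 => h' (Or.inr (Or.inr (Or.inr h1)))⟩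
  obtain ⟨f1, f2, f3, f4⟩ := non _ _ n02 (fun h => d02 ((key 0 2).1 h))
  obtain ⟨g1, g2, g3, g4⟩ := non _ _ n13 (fun h => d13 ((key 1 3).1 h))
  have s : ∀ u v, ¬ bad (ι u) (ξ u) → ¬ bad (ι v) (ξ v) → G.Adj u v →
      ι u = ι v ∨ A (ι u) (ξ u) (ι v) (ξ v) := by
    intro u v hu hv h
    rcases hadj u v h with h | h | h | h
    · exact Or.inl h
    · exact absurd h hu
    · exact absurd h hv
    · exact Or.inr h
  have sab := s _ _ f2 g2 ((key 0 1).2 a01)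
  have sbc := s _ _ g2 f3 ((key 1 2).2 a12)
  have scd := s _ _ f3 g3 ((key 2 3).2 a23)
  have sda := s _ _ g3 f2 ((key 3 0).2 a30)
  have f1' : ι (e 2) ≠ ι (e 0) := fun h => f1 h.symm
  have f4' : ¬ A (ι (e 2)) (ξ (e 2)) (ι (e 0)) (ξ (e 0)) := fun h => f4 (hsym _ _ _ _ h)
  have g1' : ι (e 3) ≠ ι (e 1) := fun h => g1 h.symm
  have g4' : ¬ A (ι (e 3)) (ξ (e 3)) (ι (e 1)) (ξ (e 1)) := fun h => g4 (hsym _ _ _ _ h)
  have nab : ι (e 0) ≠ ι (e 1) :=
    side hAH hsym hnest htri sbc scd sda ⟨f1, f4⟩ ⟨g1, g4⟩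
  have nbc : ι (e 1) ≠ ι (e 2) :=
    side hAH hsym hnest htri scd sda sab ⟨g1, g4⟩ ⟨f1', f4'⟩
  have ncd : ι (e 2) ≠ ι (e 3) :=
    side hAH hsym hnest htri sda sab sbc ⟨f1', f4'⟩ ⟨g1', g4'⟩
  have nda : ι (e 3) ≠ ι (e 0) :=
    side hAH hsym hnest htri sab sbc scd ⟨g1', g4'⟩ ⟨f1, f4⟩
  have hab := hAH _ _ _ _ (sab.resolve_left nab)
  have hbc := hAH _ _ _ _ (sbc.resolve_left nbc)
  have hcd := hAH _ _ _ _ (scd.resolve_left ncd)
  have hda := hAH _ _ _ _ (sda.resolve_left nda)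
  rcases hfour _ _ _ _ hab hbc hcd hda with h | h
  · exact f1 h
  · exact g1 h

end Pool.Agent.C4F.H86
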